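import Mathlib
import Pool.Agent.K4H74.SC.Lead
import Pool.Agent.K4H74.SC.Wrap
import Pool.Agent.K4H77.SL.Def
import Pool.Agent.K4H26.TC.Mod
import Pool.Agent.K4H26.TC.Rat

/-!
# Stark's conjecture without a sign ambiguity: reduction to 2-groups

The definitions are in `Pool.Agent.K4H74.SC.Core` and `Pool.Agent.K4H77.SL.Def`; `S` is the set of
the infinite places. No case of the conjecture is assumed.
-/

set_option autoImplicit false

namespace Pool.Agent.Results.MP_46b841_nt.ExactTwoGroups

open NumberField Pool.Agent.K4H74 Pool.Agent.K4H74.SK Pool.Agent.K4H26.TC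

/-- Let `c` be a system of leading coefficients at `s = 0` of the Artin L-functions (such systems
exist; by Brauer's theorem on the meromorphic continuation, the only one is `L*(0, χ)`), and let
`σ` be an automorphism of `ℂ`. Every character `χ` of every Galois group has exactly one defect
`d(χ)`: `A(χ, φ)^σ = d(χ) A(χ^σ, φ)` for all `φ`. Stark's conjecture for `χ` says `d(χ) = 1`.

Let `H` be any group of complex numbers which contains the defects of the faithful linear
characters of the extensions of the totally complex fields (for example the group which is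
generated by these defects and by some other defects). -/
theorem result : (∃ c : Pair → ℂ, IsLeading c) ∧ ∀ c : Pair → ℂ, IsLeading c → ∀ σ : ℂ ≃+* ℂ,
    -- the defects
    (∀ (E : Ext) (χ : G E → ℂ), IsChr χ → ∃! d : ℂˣ, IsDefect c σ χ d) ∧
    ∀ H : Subgroup ℂˣ,
    -- `H` contains the defects of the faithful linear characters of the (cyclic) extensions of the
    -- totally complex fields
    (∀ E : Ext, IsTotallyComplex E.K → ∀ ψ : G E →* ℂˣ, Function.Injective ψ →
      ∀ d : ℂˣ, IsDefect c σ (lin ψ) d → d ∈ H) →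
    -- the defect of `χ` is in `H` if the defects of all characters `χ ∘ ρ` are in `H`, where `ρ` maps
    -- the Galois group of another extension to a subgroup of order a power of two
    (∀ (E : Ext) (χ : G E → ℂ), IsChr χ →
      (∀ (E' : Ext) (ρ : G E' →* G E), (∀ u, ∃ k : ℕ, ρ u ^ (2 ^ k) = 1) →
        ∀ d : ℂˣ, IsDefect c σ (fun u => χ (ρ u)) d → d ∈ H) →
      ∀ d : ℂˣ, IsDefect c σ χ d → d ∈ H) ∧
    -- if `H` contains the defects of the rational valued characters (known to be `1`): all the
    -- characters with rational values on the elements of order a power of two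
    ((∀ (E : Ext) (χ : G E → ℂ), IsChr χ → (∀ g, ∃ q : ℚ, χ g = q) →
        ∀ d : ℂˣ, IsDefect c σ χ d → d ∈ H) →
      ∀ (E : Ext) (χ : G E → ℂ), IsChr χ →
        (∀ (g : G E) (k : ℕ), g ^ (2 ^ k) = 1 → ∃ q : ℚ, χ g = q) →
        ∀ d : ℂˣ, IsDefect c σ χ d → d ∈ H) := by
  refine ⟨exists_isLeading, fun c hc σ => ⟨fun E χ hχ => existsUnique_defect hc σ hχ, ?_⟩⟩
  intro H hcomplex
  have h2 := complex_of hc σ H hcomplex
  refine ⟨fun E χ hχ h d hd => ?_, fun hrat E χ hχ h d hd => ?_⟩
  · refine (modH_iff hc σ H hχ hd).mp (ST.red_two h2 E.K E.L χ (isChr_iff.mp hχ) ?_)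
    intro F N _ _ _ _ _ _ ρ hρ
    have h3 : ST.IsChar (fun u => χ (ρ u)) := ST.IsChar.comp (isChr_iff.mp hχ) ρ
    exact modH_one hc σ H (E := ⟨F, N⟩) (isChr_iff.mpr h3) (h ⟨F, N⟩ ρ hρ)
  · exact (modH_iff hc σ H hχ hd).mp (ST.main_rat (rational_of hc σ H hrat) h2 E.K E.L χ
      (isChr_iff.mp hχ) h)

end Pool.Agent.Results.MP_46b841_nt.ExactTwoGroups
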