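import Mathlib
import Pool.Agent.K4H77.SL.Lin
import Pool.Agent.K4H74.SC.Lead
import Pool.Agent.K4H74.SC.Wrap
import Pool.Agent.K4H77.SL.Def

/-!
# Up to the defects of the unramified split extensions and torsion, the defect of Stark's
conjecture is local

The other definitions are in `Pool.Agent.K4H74.SC.Core` and `Pool.Agent.K4H77.SL.Def`; `S` is the
set of the infinite places. The formal properties of `A(χ, φ)` and the convergence of the Artin
L-series are proved.
-/

set_option autoImplicit false

namespace Pool.Agent.Results.MP_46b841_nt.LocalDefect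

open NumberField Pool.Agent.K4H74 Pool.Agent.K4H74.SK Pool.Agent.K4H77

/-- The decomposition group of the ideal `P` of the integers of `L`. -/
def decompGroup {E : Ext} (P : Ideal (𝓞 E.L)) : Set (G E) :=
  {g | ∀ x y : 𝓞 E.L, (y : E.L) = emb g x → (y ∈ P ↔ x ∈ P)}

/-- The inertia group of the ideal `P` of the integers of `L`. -/
def inertiaGroup {E : Ext} (P : Ideal (𝓞 E.L)) : Set (G E) :=
  {g | ∀ x y : 𝓞 E.L, (y : E.L) = emb g x → y - x ∈ P}

/-- The prime `P` of `L` is bad: it divides `m` or is ramified over `K`. -/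
def Bad {E : Ext} (m : ℕ) (P : Ideal (𝓞 E.L)) : Prop :=
  P.IsMaximal ∧ ((m : 𝓞 E.L) ∈ P ∨ ∃ g ∈ inertiaGroup P, g ≠ 1)

/-- `L / K` is unramified at all finite primes, and the primes above `m` split completely. -/
def UnramifiedSplit (m : ℕ) (E : Ext) : Prop :=
  ∀ P : Ideal (𝓞 E.L), P.IsMaximal → (∀ g ∈ inertiaGroup P, g = 1) ∧
    ((m : 𝓞 E.L) ∈ P → ∀ g ∈ decompGroup P, g = 1)

lemma mem_decomp {E : Ext} {P : Ideal (𝓞 E.L)} (g : G E) :
    g ∈ decompGroup P ↔ (show E.L ≃ₐ[E.K] E.L from g) ∈ SL.decomp E.K P := by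
  constructor
  · intro h x
    exact h x _ rfl
  · intro h x y hy
    have h1 : y = SL.gi (show E.L ≃ₐ[E.K] E.L from g) x := RingOfIntegers.ext hy
    rw [h1]
    exact h x

lemma mem_inertia {E : Ext} {P : Ideal (𝓞 E.L)} (g : G E) :
    g ∈ inertiaGroup P ↔ (show E.L ≃ₐ[E.K] E.L from g) ∈ SL.inertia E.K P := by
  constructor
  · intro h x
    exact h x _ rfl
  · intro h x y hy
    have h1 : y = SL.gi (show E.L ≃ₐ[E.K] E.L from g) x := RingOfIntegers.ext hy
    rw [h1]
    exact h x

/-- The defects of the trivial characters (known to be `1`) and of the faithful linear characters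
of the extensions `L / K`, `K` totally complex, which are unramified at all finite primes and in
which the primes above `m` split completely. -/
def splitDefects (c : Pair → ℂ) (σ : ℂ ≃+* ℂ) (m : ℕ) : Set ℂˣ :=
  {d | (∃ E : Ext, IsDefect c σ (E := E) (fun _ => 1) d) ∨
    ∃ E : Ext, IsTotallyComplex E.K ∧ UnramifiedSplit m E ∧ ∃ ψ : G E →* ℂˣ,
      Function.Injective ψ ∧ IsDefect c σ (lin ψ) d}

/-- Let `c` be a system of leading coefficients at `s = 0` of the Artin L-functions (such systems
exist; by Brauer's theorem on the meromorphic continuation, the only one is `L*(0, χ)`), and let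
`σ` be an automorphism of `ℂ`. Every character `χ` has exactly one defect `d(χ)`, a nonzero number
with `A(χ, φ)^σ = d(χ) A(χ^σ, φ)` for all `φ`; Stark's conjecture says that `d(χ) = 1`.

Let `m ≥ 1`, and let `H` be the group generated by the defects of the trivial characters and of the
faithful linear characters of the extensions `L / K`, `K` totally complex, which are unramified at
all finite primes and in which the primes above `m` split completely. Let `χ, χ'` be two characters
of any Galois extension `L / K` of number fields, such that `χ - χ'` takes rational values on the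
decomposition groups of the primes which are ramified or divide `m`. Then `(d(χ) / d(χ'))^n ∈ H`,
for an `n ≥ 1` which is only divisible by primes dividing `[L : K]` (and by `2` if `K` is not
totally complex). -/
theorem result : (∃ c : Pair → ℂ, IsLeading c) ∧ ∀ c : Pair → ℂ, IsLeading c →
    ∀ σ : ℂ ≃+* ℂ,
    -- the defect
    (∀ (E : Ext) (χ : G E → ℂ), IsChr χ → ∃! d : ℂˣ, IsDefect c σ χ d) ∧
    -- it is local, up to torsion and the defects of the unramified split extensions
    ∀ m : ℕ, m ≠ 0 → ∀ (E : Ext) (χ χ' : G E → ℂ), IsChr χ → IsChr χ' →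
      (∀ P : Ideal (𝓞 E.L), Bad m P → ∀ g ∈ decompGroup P, ∃ q : ℚ, χ g - χ' g = q) →
      ∃ n : ℕ, 0 < n ∧ (∀ p : ℕ, p.Prime → p ∣ n →
          p ∣ Nat.card (G E) ∨ (p = 2 ∧ ¬ IsTotallyComplex E.K)) ∧
        ∀ d d' : ℂˣ, IsDefect c σ χ d → IsDefect c σ χ' d' →
          (d / d') ^ n ∈ Subgroup.closure (splitDefects c σ m) := by
  refine ⟨exists_isLeading, fun c hc σ => ⟨fun E χ hχ => existsUnique_defect hc σ hχ,
    fun m hm E χ χ' hχ hχ' hrat => ?_⟩⟩
  have h1 : ST.TrivOne (invMod hc σ (splitDefects c σ m)) := by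
    intro K _ _
    have h : IsChr (fun _ : G ⟨K, K⟩ => (1 : ℂ)) := by
      have h1 := isChr_lin (E := ⟨K, K⟩) 1
      have h2 : lin (1 : G ⟨K, K⟩ →* ℂˣ) = fun _ => 1 := by
        funext g
        simp [lin]
      rwa [h2] at h1
    exact invMod_one hc σ _ (E := ⟨K, K⟩) h (fun d hd => Or.inl ⟨⟨K, K⟩, hd⟩)
  have h2 : SL.TrivSplit (invMod hc σ (splitDefects c σ m)) m := by
    apply SL.trivSplit_of_lin
    intro K L _ _ _ _ _ _ hK hin hde ψ hψ
    refine invMod_one hc σ _ (E := ⟨K, L⟩) (isChr_lin (E := ⟨K, L⟩) ψ)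
      (fun d hd => Or.inr ⟨⟨K, L⟩, hK, ?_, ψ, hψ, hd⟩)
    intro P hP
    exact ⟨fun g hg => hin P hP g ((mem_inertia (E := ⟨K, L⟩) g).mp hg),
      fun hm g hg => hde P hP hm g ((mem_decomp (E := ⟨K, L⟩) g).mp hg)⟩
  have e1 := isChr_iff.mp hχ
  have e2 := isChr_iff.mp hχ'
  obtain ⟨h3, h4⟩ := SL.main_order (A := invMod hc σ (splitDefects c σ m)) hm h1 h2 E.K E.L e1 e2
    (by
      intro P hP hs g hg
      refine hrat P ⟨hP, ?_⟩ g ((mem_decomp (E := E) g).mpr hg)
      rcases hs with h | ⟨u, hu, hu1⟩
      · exact Or.inl h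
      · exact Or.inr ⟨u, (mem_inertia (E := E) u).mpr hu, hu1⟩)
  refine ⟨orderOf ((invMod hc σ (splitDefects c σ m)).val E.K E.L χ /
    (invMod hc σ (splitDefects c σ m)).val E.K E.L χ'), h3.orderOf_pos, ?_, ?_⟩
  · intro p hp hpd
    have h5 := h4 p hp hpd
    have h6 : Nat.card (G E) = Module.finrank E.K E.L := IsGalois.card_aut_eq_finrank E.K E.L
    rw [h6]
    exact h5
  · intro d d' hd hd'
    have h5 := pow_orderOf_eq_one ((invMod hc σ (splitDefects c σ m)).val E.K E.L χ /
      (invMod hc σ (splitDefects c σ m)).val E.K E.L χ')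
    have h6 : (invMod hc σ (splitDefects c σ m)).val E.K E.L χ =
        QuotientGroup.mk' (Subgroup.closure (splitDefects c σ m)) d := by
      rw [← (isDefect_iff hc σ hχ).mp hd]
      rfl
    have h7 : (invMod hc σ (splitDefects c σ m)).val E.K E.L χ' =
        QuotientGroup.mk' (Subgroup.closure (splitDefects c σ m)) d' := by
      rw [← (isDefect_iff hc σ hχ').mp hd']
      rfl
    have h8 : (QuotientGroup.mk' (Subgroup.closure (splitDefects c σ m))) ((d / d') ^
        orderOf ((invMod hc σ (splitDefects c σ m)).val E.K E.L χ /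
          (invMod hc σ (splitDefects c σ m)).val E.K E.L χ')) = 1 := by
      rw [map_pow, map_div, ← h6, ← h7]
      exact h5
    exact (QuotientGroup.eq_one_iff _).mp h8

end Pool.Agent.Results.MP_46b841_nt.LocalDefect
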