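import Mathlib
import Pool.Agent.K4H74.SC.Lead
import Pool.Agent.K4H74.SC.Wrap
import Pool.Agent.K4H77.SL.Def
import Pool.Agent.K4H26.TC.Mod

/-!
# Reduction of Stark's conjecture to totally complex base fields

The definitions are in `Pool.Agent.K4H74.SC.Core` and `Pool.Agent.K4H77.SL.Def`; `S` is the set of
the infinite places. The formal properties of `A(χ, φ)` (additivity, inflation, induction,
independence of `φ`, existence of `φ`) are proved, and so is the convergence of the Artin L-series.
No case of the conjecture is assumed.
-/

set_option autoImplicit false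

namespace Pool.Agent.Results.MP_46b841_nt.TotallyComplexReduction

open NumberField Pool.Agent.K4H74 Pool.Agent.K4H74.SK Pool.Agent.K4H26.TC

/-- Let `c` be a system of leading coefficients at `s = 0` of the Artin L-functions (such systems
exist; by Brauer's theorem on the meromorphic continuation, the only one is `L*(0, χ)`), and let
`σ` be an automorphism of `ℂ`. Every character `χ` of every Galois group has exactly one defect
`d(χ)`: `A(χ, φ)^σ = d(χ) A(χ^σ, φ)` for all `φ`. Stark's conjecture for `χ` says `d(χ) = 1`.

Let `H` be any group of complex numbers which contains the defects of the trivial characters and of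
the faithful linear characters of the extensions of the totally complex fields (for example the
group which is generated by these defects). Then `d(χ)^2` is in `H` for all characters `χ` of all
Galois extensions of number fields, and `d(χ)` is in `H` in many cases. For `H = 1`: Stark's
conjecture for the trivial characters and for the faithful linear characters of the extensions of
the totally complex fields implies Stark's conjecture, up to a sign, for all characters. -/
theorem result : (∃ c : Pair → ℂ, IsLeading c) ∧ ∀ c : Pair → ℂ, IsLeading c → ∀ σ : ℂ ≃+* ℂ,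
    -- the defects
    (∀ (E : Ext) (χ : G E → ℂ), IsChr χ → ∃! d : ℂˣ, IsDefect c σ χ d) ∧
    ∀ H : Subgroup ℂˣ,
    -- `H` contains the defects of the trivial characters (known to be `1`)
    (∀ (E : Ext) (d : ℂˣ), IsDefect c σ (E := E) (fun _ => 1) d → d ∈ H) →
    -- `H` contains the defects of the faithful linear characters of the (cyclic) extensions of the
    -- totally complex fields
    (∀ E : Ext, IsTotallyComplex E.K → ∀ ψ : G E →* ℂˣ, Function.Injective ψ →
      ∀ d : ℂˣ, IsDefect c σ (lin ψ) d → d ∈ H) →
    -- the squares of the defects of all characters of all Galois extensions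
    (∀ (E : Ext) (χ : G E → ℂ), IsChr χ → ∀ d : ℂˣ, IsDefect c σ χ d → d ^ 2 ∈ H) ∧
    -- the defects of all characters, if the Galois group has no element of order four
    (∀ E : Ext, (∀ g : G E, orderOf g ≠ 4) → ∀ χ : G E → ℂ, IsChr χ →
      ∀ d : ℂˣ, IsDefect c σ χ d → d ∈ H) ∧
    -- if `H` also contains the defects of the totally odd linear characters (known to be `1`)
    ((∀ E : Ext, IsTotallyReal E.K → ∀ ψ : G E →* ℂˣ, (∀ t, IsCC t → ψ t = -1) →
      ∀ d : ℂˣ, IsDefect c σ (lin ψ) d → d ∈ H) →
      -- the linear characters over the totally real fields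
      (∀ E : Ext, IsTotallyReal E.K → ∀ (ψ : G E →* ℂˣ) (d : ℂˣ),
        IsDefect c σ (lin ψ) d → d ∈ H) ∧
      -- all characters, if the base field is totally real and the complex conjugations are central
      -- in the Galois group
      (∀ E : Ext, IsTotallyReal E.K → (∀ t : G E, IsCC t → ∀ g : G E, g * t = t * g) →
        ∀ χ : G E → ℂ, IsChr χ → ∀ d : ℂˣ, IsDefect c σ χ d → d ∈ H) ∧
      -- everything, as soon as `H` also contains the defects of the faithful linear characters of
      -- the (cyclic) extensions of degree `4, 8, 16, ...`, without ramification at infinity, of the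
      -- fields which are neither totally real nor totally complex
      ((∀ E : Ext, ¬ IsTotallyReal E.K → ¬ IsTotallyComplex E.K →
        (∃ l : ℕ, Nat.card (G E) = 2 ^ (l + 2)) → (∀ t : G E, IsCC t → t = 1) →
        ∀ ψ : G E →* ℂˣ, Function.Injective ψ → ∀ d : ℂˣ, IsDefect c σ (lin ψ) d → d ∈ H) →
        ∀ (E : Ext) (χ : G E → ℂ), IsChr χ → ∀ d : ℂˣ, IsDefect c σ χ d → d ∈ H)) := by
  refine ⟨exists_isLeading, fun c hc σ => ⟨fun E χ hχ => existsUnique_defect hc σ hχ, ?_⟩⟩
  intro H hone hcomplex
  have h1 := one_of hc σ H hone
  have h2 := complex_of hc σ H hcomplex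
  refine ⟨?_, ?_, ?_⟩
  · exact fun E χ hχ d hd =>
      (modH_sq hc σ H hχ hd).mp (ST.main_sq _ h1 h2 E.K E.L χ (isChr_iff.mp hχ))
  · exact fun E ho χ hχ d hd =>
      (modH_iff hc σ H hχ hd).mp (ST.main_four h1 h2 E.K E.L ho χ (isChr_iff.mp hχ))
  · intro hodd
    have h3 := odd_of hc σ H hodd
    refine ⟨?_, ?_, ?_⟩
    · exact fun E hK ψ d hd =>
        (modH_iff hc σ H (isChr_lin ψ) hd).mp (ST.val_lin_real h1 h2 h3 hK ψ)
    · intro E hK hcc χ hχ d hd
      refine (modH_iff hc σ H hχ hd).mp
        (ST.main_central h1 h2 h3 E.K E.L hK ?_ χ (isChr_iff.mp hχ))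
      rintro t ⟨φ, hφ⟩ g
      exact hcc t ⟨φ, fun x => (RingHom.congr_fun hφ x).symm⟩ g
    · exact fun hmixed E χ hχ d hd => (modH_iff hc σ H hχ hd).mp
        (ST.main_all _ h1 h2 h3 (mixed_of hc σ H hmixed) E.K E.L χ (isChr_iff.mp hχ))

end Pool.Agent.Results.MP_46b841_nt.TotallyComplexReduction
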