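import Mathlib
import Pool.Agent.K4H34.AL.Comb2

/-!
# Multiplicative relations between Artin L-functions and Stark's numbers `A(χ, φ)`: only the
class group characters of the totally complex fields matter

The other definitions are in `Pool.Agent.K4H74.SC.Core` and `Pool.Agent.K4H77.SL.Def`; `S` is the
set of the infinite places. The formal properties of `A(χ, φ)` and the convergence of the Artin
L-series are proved.
-/

set_option autoImplicit false

namespace Pool.Agent.Results.MP_46b841_nt.UnramifiedRelations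

open NumberField Pool.Agent.K4H74 Pool.Agent.K4H74.SK Pool.Agent.K4H77 Pool.Agent.K4H34.AL

/-- The decomposition group of the ideal `P` of the integers of `L`. -/
def decompGroup {E : Ext} (P : Ideal (𝓞 E.L)) : Set (G E) :=
  {g | ∀ x y : 𝓞 E.L, (y : E.L) = emb g x → (y ∈ P ↔ x ∈ P)}

/-- The inertia group of the ideal `P` of the integers of `L`. -/
def inertiaGroup {E : Ext} (P : Ideal (𝓞 E.L)) : Set (G E) :=
  {g | ∀ x y : 𝓞 E.L, (y : E.L) = emb g x → y - x ∈ P}

/-- `L / K` is unramified at all finite primes, and the primes above `m` split completely. -/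
def UnramifiedSplit (m : ℕ) (E : Ext) : Prop :=
  ∀ P : Ideal (𝓞 E.L), P.IsMaximal → (∀ g ∈ inertiaGroup P, g = 1) ∧
    ((m : 𝓞 E.L) ∈ P → ∀ g ∈ decompGroup P, g = 1)

lemma mem_decomp {E : Ext} {P : Ideal (𝓞 E.L)} (g : G E) :
    g ∈ decompGroup P ↔ (show E.L ≃ₐ[E.K] E.L from g) ∈ SL.decomp E.K P := by
  constructor
  · intro h x
    exact h x _ rfl
  · intro h x y hy
    have h1 : y = SL.gi (show E.L ≃ₐ[E.K] E.L from g) x := RingOfIntegers.ext hy
    rw [h1]
    exact h x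

lemma mem_inertia {E : Ext} {P : Ideal (𝓞 E.L)} (g : G E) :
    g ∈ inertiaGroup P ↔ (show E.L ≃ₐ[E.K] E.L from g) ∈ SL.inertia E.K P := by
  constructor
  · intro h x
    exact h x _ rfl
  · intro h x y hy
    have h1 : y = SL.gi (show E.L ≃ₐ[E.K] E.L from g) x := RingOfIntegers.ext hy
    rw [h1]
    exact h x

/-- The linear character `ψ` takes the value `-1` at all complex conjugations. -/
def TotallyOdd {E : Ext} (ψ : G E →* ℂˣ) : Prop := ∀ t : G E, IsCC t → ψ t = -1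

/-- The basic characters: the trivial characters, the totally odd linear characters of the
extensions of the totally real fields (for these two types Stark's conjecture is known, by the
class number formula and Siegel's theorem), and the faithful linear characters, of order dividing
`D` (no condition if `D = 0`), of the (cyclic) extensions `L / K`, `K` totally complex, which are
unramified at all finite primes and in which the primes above `m` split completely. -/
inductive Basic (m D : ℕ) : Pair → Prop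
  | trivial (E : Ext) : Basic m D ⟨E, fun _ => 1⟩
  | odd (E : Ext) (ψ : G E →* ℂˣ) : IsTotallyReal E.K → TotallyOdd ψ → Basic m D ⟨E, lin ψ⟩
  | unramified (E : Ext) (ψ : G E →* ℂˣ) : IsTotallyComplex E.K → UnramifiedSplit m E →
      Function.Injective ψ → ψ ^ D = 1 → Basic m D ⟨E, lin ψ⟩

lemma isChr_one (E : Ext) : IsChr (fun _ : G E => (1 : ℂ)) := by
  have h1 := isChr_lin (E := E) 1
  have h2 : lin (1 : G E →* ℂˣ) = fun _ => 1 := by
    funext g
    simp [lin]
  rwa [h2] at h1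

lemma Basic.isChr {m D : ℕ} {x : Pair} (h : Basic m D x) : IsChr x.2 := by
  cases h with
  | trivial E => exact isChr_one E
  | odd E ψ _ _ => exact isChr_lin ψ
  | unramified E ψ _ _ _ _ => exact isChr_lin ψ

/-- `a` is one of the numbers `A(χ, φ)`. -/
def IsStarkNumber (c : Pair → ℂ) (x : Pair) (a : ℂ) : Prop :=
  ∃ Λ : Y x.1 →ₗ[ℂ] Y x.1, IsStarkMap Λ ∧ IsA c Λ x.2 a

/-- Let `c` be a system of leading coefficients at `s = 0` of the Artin L-functions (such systems
exist; by Brauer's theorem on the meromorphic continuation, the only one is `L*(0, χ)`). Every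
character `χ` has for every automorphism `σ` of `ℂ` exactly one defect `d(χ, σ)`, a nonzero number
with `A(χ, φ)^σ = d(χ, σ) A(χ^σ, φ)` for all `φ`; Stark's conjecture says that `d(χ, σ) = 1`.

(1) Let `m ≥ 1`. Let `χ` be a character of a Galois extension `L / K` of number fields, and let `N`
be a Galois extension of `ℚ` which contains `L`, with a Galois group of exponent dividing `e`. There
are `n ≥ 1`, divisible only by primes which divide `2 [N : ℚ]`, basic characters `ψ_i` (for `m` and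
`D = 2 e`) and integers `k_i` such that `L(s, χ)^n = ∏ L(s, ψ_i)^(k_i)` (for the logarithms,
`Re s > 1`), the same is true for the leading coefficients at `s = 0`, for the defects for all
automorphisms `σ` of `ℂ`, and, up to an algebraic factor, for the numbers `A(χ, φ)`.

(2) For every `σ`: all the defects are roots of unity if the defects of the basic characters are.

(3) All the numbers `A(χ, φ)` are algebraic if those of the basic characters are. -/
theorem result : (∃ c : Pair → ℂ, IsLeading c) ∧ ∀ c : Pair → ℂ, IsLeading c →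
    -- the defects
    (∀ (σ : ℂ ≃+* ℂ) (E : Ext) (χ : G E → ℂ), IsChr χ → ∃! d : ℂˣ, IsDefect c σ χ d) ∧
    ∀ m : ℕ, m ≠ 0 →
      -- (1)
      (∀ (E : Ext) (χ : G E → ℂ), IsChr χ → ∀ (N : Type) [Field N] [NumberField N]
        [IsGalois ℚ N] [Algebra E.L N] (e : ℕ), (∀ y : N ≃ₐ[ℚ] N, y ^ e = 1) →
        ∃ n : ℕ, 0 < n ∧ (∀ p : ℕ, p.Prime → p ∣ n → p ∣ 2 * Module.finrank ℚ N) ∧
          ∃ (r : ℕ) (x : Fin r → Pair) (k : Fin r → ℤ), (∀ i, Basic m (2 * e) (x i)) ∧
          (∀ s : ℂ, 1 < s.re → ∀ (l : ℂ) (l' : Fin r → ℂ), HasSum (logTerm χ s) l →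
            (∀ i, HasSum (logTerm (x i).2 s) (l' i)) → n * l = ∑ i, k i * l' i) ∧
          c ⟨E, χ⟩ ^ n = ∏ i, c (x i) ^ k i ∧
          (∀ (σ : ℂ ≃+* ℂ) (d : ℂˣ) (d' : Fin r → ℂˣ), IsDefect c σ χ d →
            (∀ i, IsDefect c σ (x i).2 (d' i)) → d ^ n = ∏ i, d' i ^ k i) ∧
          ∀ (a : ℂ) (a' : Fin r → ℂ), IsStarkNumber c ⟨E, χ⟩ a →
            (∀ i, IsStarkNumber c (x i) (a' i)) →
              ∃ α : ℂ, IsAlgebraic ℚ α ∧ a ^ n = α * ∏ i, a' i ^ k i) ∧
      -- (2)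
      (∀ σ : ℂ ≃+* ℂ,
        (∀ x : Pair, Basic m 0 x → ∀ d : ℂˣ, IsDefect c σ x.2 d → IsOfFinOrder d) →
          ∀ (E : Ext) (χ : G E → ℂ), IsChr χ → ∀ d : ℂˣ, IsDefect c σ χ d → IsOfFinOrder d) ∧
      -- (3)
      ((∀ x : Pair, Basic m 0 x → ∀ a : ℂ, IsStarkNumber c x a → IsAlgebraic ℚ a) →
        ∀ (E : Ext) (χ : G E → ℂ), IsChr χ → ∀ a : ℂ, IsStarkNumber c ⟨E, χ⟩ a →
          IsAlgebraic ℚ a) := by
  refine ⟨exists_isLeading, fun c hc => ⟨fun σ E χ hχ => existsUnique_defect hc σ hχ,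
    fun m hm => ?_⟩⟩
  have hmain : ∀ (E : Ext) (χ : G E → ℂ), IsChr χ → ∀ (N : Type) [Field N] [NumberField N]
        [IsGalois ℚ N] [Algebra E.L N] (e : ℕ), (∀ y : N ≃ₐ[ℚ] N, y ^ e = 1) →
        ∃ n : ℕ, 0 < n ∧ (∀ p : ℕ, p.Prime → p ∣ n → p ∣ 2 * Module.finrank ℚ N) ∧
          ∃ (r : ℕ) (x : Fin r → Pair) (k : Fin r → ℤ), (∀ i, Basic m (2 * e) (x i)) ∧
          (∀ s : ℂ, 1 < s.re → ∀ (l : ℂ) (l' : Fin r → ℂ), HasSum (logTerm χ s) l →
            (∀ i, HasSum (logTerm (x i).2 s) (l' i)) → n * l = ∑ i, k i * l' i) ∧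
          c ⟨E, χ⟩ ^ n = ∏ i, c (x i) ^ k i ∧
          (∀ (σ : ℂ ≃+* ℂ) (d : ℂˣ) (d' : Fin r → ℂˣ), IsDefect c σ χ d →
            (∀ i, IsDefect c σ (x i).2 (d' i)) → d ^ n = ∏ i, d' i ^ k i) ∧
          ∀ (a : ℂ) (a' : Fin r → ℂ), IsStarkNumber c ⟨E, χ⟩ a →
            (∀ i, IsStarkNumber c (x i) (a' i)) →
              ∃ α : ℂ, IsAlgebraic ℚ α ∧ a ^ n = α * ∏ i, a' i ^ k i := by
    intro E χ hχ N _ _ _ _ e heN
    obtain ⟨n, hn, hp, r, x, k, hx, h⟩ := power_form2 (allInv hc) (Basic m (2 * e)) hm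
      (fun K _ _ => Basic.trivial ⟨K, K⟩)
      (fun E hE ψ hψ => Basic.odd E ψ hE hψ)
      (fun E hE hP ψ hψ hψe => Basic.unramified E ψ hE (fun P hPm =>
        ⟨fun g hg => (hP P hPm).1 g ((mem_inertia g).mp hg),
          fun hmP g hg => (hP P hPm).2 hmP g ((mem_decomp g).mp hg)⟩) hψ hψe) hχ N heN
    obtain ⟨r1, r2, r3, r4⟩ := all_rel hc h
    refine ⟨n, hn, hp, r, x, k, hx, fun s hs l l' hl hl' => log_rel r1 hs hl hl', ?_, ?_, ?_⟩
    · have h1 := congrArg (Units.val) r2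
      rw [Units.val_pow_eq_pow_val, pval_lead hc (x := ⟨E, χ⟩) hχ, Units.coe_prod] at h1
      rw [h1]
      exact Finset.prod_congr rfl fun i _ => by
        rw [Units.val_zpow_eq_zpow_val, pval_lead hc (hx i).isChr]
    · intro σ d d' hd hd'
      have h1 := r3 σ
      rw [pval_defect hc σ (x := ⟨E, χ⟩) hχ hd] at h1
      rw [h1]
      exact Finset.prod_congr rfl fun i _ => by rw [pval_defect hc σ (hx i).isChr (hd' i)]
    · rintro a a' ⟨Λ, hΛ, ha⟩ ha'
      choose Λ' hΛ' ha' using ha'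
      have ha0 : a ≠ 0 := isA_ne hc (x := ⟨E, χ⟩) hχ hΛ ha
      have ha0' : ∀ i, a' i ≠ 0 := fun i => isA_ne hc (hx i).isChr (hΛ' i) (ha' i)
      have e1 : pval (algInv (leadInv hc)) ⟨E, χ⟩ = (Units.mk0 a ha0 : ℂˣ) :=
        pval_alg hc (x := ⟨E, χ⟩) hχ hΛ ha
      have e2 : ∀ i, pval (algInv (leadInv hc)) (x i) = (Units.mk0 (a' i) (ha0' i) : ℂˣ) :=
        fun i => pval_alg hc (hx i).isChr (hΛ' i) (ha' i)
      have h1 : ((Units.mk0 a ha0 ^ n : ℂˣ) : ℂˣ ⧸ algU)
          = ((∏ i, Units.mk0 (a' i) (ha0' i) ^ k i : ℂˣ) : ℂˣ ⧸ algU) := by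
        change (QuotientGroup.mk' algU) _ = (QuotientGroup.mk' algU) _
        rw [map_pow, map_prod]
        change ((Units.mk0 a ha0 : ℂˣ) : ℂˣ ⧸ algU) ^ n = _
        rw [← e1, r4]
        exact Finset.prod_congr rfl fun i _ => by rw [map_zpow, e2]; rfl
      rw [QuotientGroup.eq, mem_algU] at h1
      set P : ℂˣ := ∏ i, Units.mk0 (a' i) (ha0' i) ^ k i with hP
      refine ⟨((P⁻¹ * Units.mk0 a ha0 ^ n : ℂˣ) : ℂ), ?_, ?_⟩
      · have h2 : P⁻¹ * Units.mk0 a ha0 ^ n = ((Units.mk0 a ha0 ^ n)⁻¹ * P)⁻¹ := by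
          rw [mul_inv_rev, inv_inv]
        rw [h2, Units.val_inv_eq_inv_val]
        exact h1.inv
      · have h2 : ∏ i, a' i ^ k i = (P : ℂ) := by
          rw [hP, Units.coe_prod]
          exact Finset.prod_congr rfl fun i _ => by
            rw [Units.val_zpow_eq_zpow_val, Units.val_mk0]
        rw [h2, ← Units.val_mul, mul_comm, mul_inv_cancel_left, Units.val_pow_eq_pow_val,
          Units.val_mk0]
  refine ⟨hmain, ?_, ?_⟩
  · intro σ hb E χ hχ d hd
    obtain ⟨N, i1, i2, i3, i4⟩ := Pool.Agent.K4H34.ST.exists_gal E.L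
    obtain ⟨n, hn, -, r, x, k, hx, -, -, h, -⟩ := hmain E χ hχ N 0 (fun y => pow_zero y)
    choose d' hd' _ using fun i => existsUnique_defect hc σ (hx i).isChr
    have h1 := h σ d d' hd hd'
    have h2 : d ^ n ∈ CommGroup.torsion ℂˣ := by
      rw [h1]
      exact Subgroup.prod_mem _ fun i _ => Subgroup.zpow_mem _ (hb _ (hx i) _ (hd' i)) _
    exact (isOfFinOrder_pow.mp h2).resolve_right hn.ne'
  · intro hb E χ hχ a ha
    obtain ⟨N, i1, i2, i3, i4⟩ := Pool.Agent.K4H34.ST.exists_gal E.L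
    obtain ⟨n, hn, -, r, x, k, hx, -, -, -, h⟩ := hmain E χ hχ N 0 (fun y => pow_zero y)
    have h0 : ∀ i, ∃ a', IsStarkNumber c (x i) a' := by
      intro i
      have h' := isChr_iff.mp (hx i).isChr
      obtain ⟨φ⟩ := SC.exists_StarkMap (L := (x i).1.L) (x i).1.K
      obtain ⟨a, ha⟩ := SC.IsA.exists (leadInv hc) φ h'
      obtain ⟨Λ, hΛ, hφ⟩ := exists_new φ
      exact ⟨a, Λ, hΛ, isA_new hc hφ h' ha⟩
    choose a' ha' using h0
    obtain ⟨α, hα, h1⟩ := h a a' ha ha'
    refine IsAlgebraic.of_pow hn ?_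
    rw [h1, ← mem_QB]
    exact mul_mem (mem_QB.mpr hα) (prod_mem fun i _ =>
      zpow_mem (mem_QB.mpr (hb _ (hx i) _ (ha' i))) _)

end Pool.Agent.Results.MP_46b841_nt.UnramifiedRelations
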